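import Mathlib

/-!
# Locally finite covers of a Hilbert space

An infinite dimensional Hilbert space has no locally finite cover by bounded weakly closed sets.
-/

set_option autoImplicit false

open Filter Topology Set
open scoped RealInnerProductSpace

namespace Pool.Agent.Lib.MP_3191e9_an_h61

variable {H : Type*} [NormedAddCommGroup H] [InnerProductSpace ℝ H]

/-- In an infinite dimensional space there are vectors of any given length which are orthogonal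
to a given finite set. -/
theorem exists_orth (hH : ¬ FiniteDimensional ℝ H) (F : Finset H) {δ : ℝ} (hδ : 0 ≤ δ) :
    ∃ v : H, (∀ e ∈ F, ⟪e, v⟫ = 0) ∧ ‖v‖ = δ := by
  have : FiniteDimensional ℝ (Submodule.span ℝ (F : Set H)) :=
    FiniteDimensional.span_of_finite ℝ F.finite_toSet
  have h1 : (Submodule.span ℝ (F : Set H))ᗮ ≠ ⊥ := by
    intro h
    have h2 : Submodule.span ℝ (F : Set H) = ⊤ := by
      rw [← Submodule.orthogonal_eq_bot_iff]; exact h
    apply hH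
    have : FiniteDimensional ℝ (⊤ : Submodule ℝ H) := h2 ▸ (inferInstance)
    exact Module.finite_def.2 (Module.Finite.iff_fg.1 this)
  obtain ⟨w, hw, hw0⟩ := Submodule.exists_mem_ne_zero_of_ne_bot h1
  have hwn : ‖w‖ ≠ 0 := norm_ne_zero_iff.2 hw0
  refine ⟨(δ / ‖w‖) • w, fun e he => ?_, ?_⟩
  · rw [inner_smul_right, (Submodule.mem_orthogonal _ _).1 hw e (Submodule.subset_span he), mul_zero]
  · rw [norm_smul, Real.norm_eq_abs, abs_of_nonneg (div_nonneg hδ (norm_nonneg _)),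
      div_mul_cancel₀ _ hwn]

/-- A cover by bounded weakly closed sets is not locally finite. -/
theorem no_locally_finite_cover [CompleteSpace H] (hH : ¬ FiniteDimensional ℝ H) {ι : Type*}
    (C : ι → Set H) (hcov : ∀ x, ∃ i, x ∈ C i) (hbd : ∀ i, Bornology.IsBounded (C i))
    (hw : ∀ i x, x ∉ C i → ∃ F : Finset H, ∀ z ∈ C i, ¬ ∀ e ∈ F, ⟪e, z - x⟫ = 0)
    (hlf : ∀ x, ∃ s : ℝ, 0 < s ∧ {i | (C i ∩ Metric.ball x s).Nonempty}.Finite) : False := by
  classical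
  have hP : ∀ x, ∃ n : ℕ, {i | (C i ∩ Metric.ball x ((1 / 2 : ℝ) ^ n)).Nonempty}.Finite := by
    intro x
    obtain ⟨s, hs, hfin⟩ := hlf x
    obtain ⟨n, hn⟩ := exists_pow_lt_of_lt_one hs (show (1 / 2 : ℝ) < 1 by norm_num)
    refine ⟨n, hfin.subset fun i hi => ?_⟩
    obtain ⟨z, hz1, hz2⟩ := hi
    exact ⟨z, hz1, Metric.ball_subset_ball hn.le hz2⟩
  let N : H → ℕ := fun x => Nat.find (hP x)
  have hN : ∀ x, {i | (C i ∩ Metric.ball x ((1 / 2 : ℝ) ^ N x)).Nonempty}.Finite := fun x =>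
    Nat.find_spec (hP x)
  have hstep : ∀ p : H × Finset H, ∃ v : H, (∀ e ∈ p.2, ⟪e, v⟫ = 0) ∧
      ‖v‖ = (1 / 2 : ℝ) ^ (N p.1 + 1) ∧ ∀ i, p.1 + v ∈ C i → p.1 ∈ C i := by
    rintro ⟨x, G⟩
    choose! Fi hFi using fun i => hw i x
    obtain ⟨v, hv1, hv2⟩ := exists_orth hH ((hN x).toFinset.biUnion Fi ∪ G)
      (δ := (1 / 2 : ℝ) ^ (N x + 1)) (by positivity)
    refine ⟨v, fun e he => hv1 e (Finset.mem_union_right _ he), hv2, fun i hi => ?_⟩
    by_contra hx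
    refine hFi i hx _ hi fun e he => ?_
    rw [add_sub_cancel_left]
    refine hv1 e (Finset.mem_union_left _ (Finset.mem_biUnion.2 ⟨i, ?_, he⟩))
    rw [Set.Finite.mem_toFinset]
    refine ⟨x + v, hi, ?_⟩
    rw [Metric.mem_ball, dist_eq_norm, add_sub_cancel_left, hv2, pow_succ]
    have : (0 : ℝ) < (1 / 2 : ℝ) ^ N x := by positivity
    linarith
  choose V hV1 hV2 hV3 using hstep
  let q : ℕ → H × Finset H := fun k =>
    Nat.rec (0, {0}) (fun _ p => (p.1 + V p, insert (p.1 + V p) p.2)) k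
  have hq : ∀ k, q (k + 1) = ((q k).1 + V (q k), insert ((q k).1 + V (q k)) (q k).2) := fun _ => rfl
  let x : ℕ → H := fun k => (q k).1
  have hx : ∀ k, x (k + 1) = x k + V (q k) := fun _ => rfl
  have hx0 : x 0 = 0 := rfl
  have hmem : ∀ k, x k ∈ (q k).2 := by
    intro k
    cases k with
    | zero => exact Finset.mem_singleton.2 rfl
    | succ k => exact Finset.mem_insert_self _ _
  have hsub : ∀ k, (q k).2 ⊆ (q (k + 1)).2 := fun k => Finset.subset_insert _ _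
  have hmono : Monotone fun k => (q k).2 := monotone_nat_of_le_succ hsub
  have horth : ∀ j k, j ≤ k → ⟪x j, V (q k)⟫ = 0 := fun j k hjk =>
    hV1 (q k) _ (hmono hjk (hmem j))
  have horth2 : ∀ k l, k ≤ l → ⟪x k, x l - x k⟫ = 0 := by
    intro k l hkl
    induction l, hkl using Nat.le_induction with
    | base => rw [sub_self, inner_zero_right]
    | succ l hkl ih =>
      rw [hx, add_sub_right_comm, inner_add_right, ih, horth k l hkl, add_zero]
  have hsq : ∀ k l, k ≤ l → ‖x l‖ ^ 2 = ‖x k‖ ^ 2 + ‖x l - x k‖ ^ 2 := by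
    intro k l hkl
    have h : x l = x k + (x l - x k) := by abel
    calc ‖x l‖ ^ 2 = ‖x k + (x l - x k)‖ ^ 2 := by rw [← h]
      _ = ‖x k‖ ^ 2 + ‖x l - x k‖ ^ 2 := by
        rw [norm_add_sq_real, horth2 k l hkl]; ring
  have hstep2 : ∀ k, ‖x (k + 1)‖ ^ 2 = ‖x k‖ ^ 2 + ((1 / 2 : ℝ) ^ (N (x k) + 1)) ^ 2 := by
    intro k
    rw [hsq k (k + 1) (Nat.le_succ k)]
    congr 2
    rw [hx, add_sub_cancel_left]
    exact hV2 (q k)
  have hdesc : ∀ k i, x k ∈ C i → x 0 ∈ C i := by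
    intro k
    induction k with
    | zero => exact fun i h => h
    | succ k ih => exact fun i h => ih i (hV3 (q k) i h)
  obtain ⟨R, hR⟩ : ∃ R : ℝ, ∀ k, ‖x k‖ ≤ R := by
    have hfin : {i | x 0 ∈ C i}.Finite := (hN (x 0)).subset fun i hi =>
      ⟨x 0, hi, Metric.mem_ball_self (by positivity)⟩
    have hb : Bornology.IsBounded (⋃ i ∈ {i | x 0 ∈ C i}, C i) :=
      (Bornology.isBounded_biUnion hfin).2 fun i _ => hbd i
    obtain ⟨R, hR⟩ := hb.subset_closedBall (0 : H)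
    refine ⟨R, fun k => ?_⟩
    obtain ⟨i, hi⟩ := hcov (x k)
    exact mem_closedBall_zero_iff.1 (hR (mem_biUnion (hdesc k i hi) hi))
  have hamono : Monotone fun k => ‖x k‖ ^ 2 := fun k l hkl => by
    show ‖x k‖ ^ 2 ≤ ‖x l‖ ^ 2
    rw [hsq k l hkl]
    linarith [sq_nonneg ‖x l - x k‖]
  have habd : BddAbove (range fun k => ‖x k‖ ^ 2) := by
    refine ⟨R ^ 2, ?_⟩
    rintro _ ⟨k, rfl⟩
    exact pow_le_pow_left₀ (norm_nonneg _) (hR k) 2
  obtain ⟨L, hL⟩ : ∃ L, Tendsto (fun k => ‖x k‖ ^ 2) atTop (𝓝 L) :=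
    ⟨_, tendsto_atTop_ciSup hamono habd⟩
  have haL : ∀ k, ‖x k‖ ^ 2 ≤ L := fun k => hamono.ge_of_tendsto hL k
  have hcs : CauchySeq x := by
    refine cauchySeq_of_le_tendsto_0 (fun k => Real.sqrt (2 * (L - ‖x k‖ ^ 2)) * 2) ?_ ?_
    · intro n m k hkn hkm
      have h1 : ∀ n, k ≤ n → ‖x n - x k‖ ≤ Real.sqrt (2 * (L - ‖x k‖ ^ 2)) := by
        intro n hkn
        apply Real.le_sqrt_of_sq_le
        have h2 := hsq k n hkn
        have h3 := haL n
        have h4 := haL k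
        linarith
      calc dist (x n) (x m) ≤ dist (x n) (x k) + dist (x m) (x k) := dist_triangle_right _ _ _
        _ ≤ Real.sqrt (2 * (L - ‖x k‖ ^ 2)) + Real.sqrt (2 * (L - ‖x k‖ ^ 2)) := by
          rw [dist_eq_norm, dist_eq_norm]; exact add_le_add (h1 n hkn) (h1 m hkm)
        _ = Real.sqrt (2 * (L - ‖x k‖ ^ 2)) * 2 := by ring
    · have h1 : Tendsto (fun k => 2 * (L - ‖x k‖ ^ 2)) atTop (𝓝 (2 * (L - L))) :=
        (tendsto_const_nhds.sub hL).const_mul 2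
      rw [sub_self, mul_zero] at h1
      have h2 := ((Real.continuous_sqrt.tendsto 0).comp h1).mul_const 2
      simpa using h2
  obtain ⟨y, hy⟩ := cauchySeq_tendsto_of_complete hcs
  obtain ⟨m, hm⟩ := hP y
  have hdiff : Tendsto (fun k => ‖x (k + 1)‖ ^ 2 - ‖x k‖ ^ 2) atTop (𝓝 0) := by
    have := ((tendsto_add_atTop_iff_nat 1).2 hL).sub hL
    rwa [sub_self] at this
  have hev1 : ∀ᶠ k in atTop, ‖x (k + 1)‖ ^ 2 - ‖x k‖ ^ 2 < ((1 / 2 : ℝ) ^ (m + 2)) ^ 2 :=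
    hdiff.eventually_lt_const (by positivity)
  have hev2 : ∀ᶠ k in atTop, x k ∈ Metric.ball y ((1 / 2 : ℝ) ^ (m + 1)) :=
    hy.eventually (Metric.ball_mem_nhds _ (by positivity))
  obtain ⟨k, hk1, hk2⟩ := (hev1.and hev2).exists
  have hNk : N (x k) ≤ m + 1 := by
    refine Nat.find_min' (hP (x k)) (hm.subset fun i hi => ?_)
    obtain ⟨z, hz1, hz2⟩ := hi
    refine ⟨z, hz1, ?_⟩
    rw [Metric.mem_ball] at hz2 hk2 ⊢
    calc dist z y ≤ dist z (x k) + dist (x k) y := dist_triangle _ _ _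
      _ < (1 / 2 : ℝ) ^ (m + 1) + (1 / 2 : ℝ) ^ (m + 1) := add_lt_add hz2 hk2
      _ = (1 / 2 : ℝ) ^ m := by rw [pow_succ]; ring
  have h1 : ((1 / 2 : ℝ) ^ (m + 2)) ≤ (1 / 2 : ℝ) ^ (N (x k) + 1) :=
    pow_le_pow_of_le_one (by norm_num) (by norm_num) (by omega)
  have h2 : ((1 / 2 : ℝ) ^ (m + 2)) ^ 2 ≤ ((1 / 2 : ℝ) ^ (N (x k) + 1)) ^ 2 :=
    pow_le_pow_left₀ (by positivity) h1 2
  have h3 := hstep2 k
  linarith

end Pool.Agent.Lib.MP_3191e9_an_h61
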