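import Mathlib

/-!
# Dominated points of a family of sets
-/

set_option autoImplicit false

open Set
open scoped RealInnerProductSpace

namespace Pool.Agent.Lib.MP_3191e9_an_h61

variable {H : Type*} [NormedAddCommGroup H] [InnerProductSpace ℝ H]

/-- The points of `C` in some weak neighbourhood of `y` have a point of `D` within `ε`. -/
def NearAt (C D : Set H) (y : H) (ε : ℝ) : Prop :=
  ∃ F : Finset H, ∀ z ∈ C, (∀ e ∈ F, |⟪e, z - y⟫| < 1) → ∃ w ∈ D, ‖z - w‖ ≤ ε

/-- The point `x` is dominated by finitely many members of the family `T`: there is a finite set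
`I` of indices such that, for every `ε > 0`, all but finitely many members `T j` are, near their
points `y` close to `x`, weakly locally within `ε` of the union of the `T i`, `i ∈ I`. -/
def Dominated {ι : Type*} (T : ι → Set H) (x : H) : Prop :=
  ∃ I : Finset ι, ∀ ε : ℝ, 0 < ε → ∃ δ : ℝ, 0 < δ ∧ ∃ E : Finset ι, ∀ j, j ∉ E → ∀ y ∈ T j,
    ‖y - x‖ < δ → NearAt (T j) (⋃ i ∈ I, T i) y ε

/-- The family `T` is face-to-face along `V`: if `x ∈ T i` is a point of `V`, then `T i` is separated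
from the other members `T j` with points near `x` by hyperplanes such that the points of `T j` near
the hyperplane are near `T i`, uniformly in `j`. -/
def FaceToFaceAlong {ι : Type*} (T : ι → Set H) (V : Set H) : Prop :=
  ∀ i, ∀ x ∈ T i, x ∈ V → ∀ ε : ℝ, 0 < ε → ∃ δ : ℝ, 0 < δ ∧ ∀ j, j ≠ i →
    (∃ y ∈ T j, ‖y - x‖ < δ) → ∃ (f : H) (c : ℝ), ‖f‖ = 1 ∧ (∀ z ∈ T i, ⟪f, z⟫ ≤ c) ∧
      ∀ z ∈ T j, c ≤ ⟪f, z⟫ ∧ (⟪f, z⟫ < c + δ → ∃ w ∈ T i, ‖z - w‖ ≤ ε)

end Pool.Agent.Lib.MP_3191e9_an_h61
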