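import Pool.Agent.Lib.MP_3191e9_an_h61.Defs
import Pool.Agent.Lib.MP_3191e9_an_h61.Corson

/-!
# Covers by convex sets have points which are not dominated
-/

set_option autoImplicit false

open Filter Topology Set
open scoped RealInnerProductSpace

namespace Pool.Agent.Lib.MP_3191e9_an_h61

variable {H : Type*} [NormedAddCommGroup H] [InnerProductSpace ℝ H]

/-- Weak closure. -/
def wcl (A : Set H) : Set H := {x | ∀ F : Finset H, ∃ z ∈ A, ∀ e ∈ F, |⟪e, z - x⟫| < 1}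

theorem subset_wcl (A : Set H) : A ⊆ wcl A := fun x hx _ =>
  ⟨x, hx, fun e _ => by rw [sub_self, inner_zero_right, abs_zero]; exact one_pos⟩

theorem wcl_miss {A : Set H} {x : H} (hx : x ∉ wcl A) :
    ∃ F : Finset H, ∀ z ∈ wcl A, ¬ ∀ e ∈ F, ⟪e, z - x⟫ = 0 := by
  have h : ¬ ∀ F : Finset H, ∃ z ∈ A, ∀ e ∈ F, |⟪e, z - x⟫| < 1 := hx
  rw [not_forall] at h
  obtain ⟨F, hF⟩ := h
  refine ⟨F, fun z hz hze => hF ?_⟩
  obtain ⟨z', hz', h1⟩ := hz F
  refine ⟨z', hz', fun e he => ?_⟩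
  have h2 : z' - x = (z' - z) + (z - x) := by abel
  rw [h2, inner_add_right, hze e he, add_zero]
  exact h1 e he

theorem wcl_subset_closedBall {A : Set H} {R : ℝ} (hR : 0 ≤ R)
    (hA : A ⊆ Metric.closedBall 0 R) : wcl A ⊆ Metric.closedBall 0 R := by
  intro x hx
  rw [mem_closedBall_zero_iff]
  by_contra hlt
  rw [not_le] at hlt
  have hx0 : 0 < ‖x‖ := hR.trans_lt hlt
  obtain ⟨z, hz, h1⟩ := hx {(1 / (‖x‖ * (‖x‖ - R))) • x}
  have h2 := h1 _ (Finset.mem_singleton_self _)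
  have hzR : ‖z‖ ≤ R := mem_closedBall_zero_iff.1 (hA hz)
  have hc : 0 < ‖x‖ * (‖x‖ - R) := mul_pos hx0 (by linarith)
  rw [inner_smul_left, inner_sub_right, real_inner_self_eq_norm_sq, RCLike.conj_to_real, abs_lt] at h2
  have h3 : ⟪x, z⟫ ≤ ‖x‖ * R := (real_inner_le_norm x z).trans
    (mul_le_mul_of_nonneg_left hzR hx0.le)
  have h4 : 1 / (‖x‖ * (‖x‖ - R)) * (⟪x, z⟫ - ‖x‖ ^ 2) ≤ -1 := by
    rw [div_mul_eq_mul_div, one_mul, div_le_iff₀ hc]
    nlinarith
  linarith [h2.1]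

/-- Weak limits of bounded families along an ultrafilter. -/
theorem exists_weak_limit [CompleteSpace H] {κ : Type*} (U : Ultrafilter κ) (b : κ → H) (M : ℝ)
    (hb : ∀ n, ‖b n‖ ≤ M) :
    ∃ x : H, ∀ v : H, Tendsto (fun n => ⟪v, b n⟫) U (𝓝 ⟪v, x⟫) := by
  let φ : κ → WeakDual ℝ H := fun n =>
    StrongDual.toWeakDual (InnerProductSpace.toDual ℝ H (b n))
  have hmem : ∀ n, φ n ∈ WeakDual.toStrongDual ⁻¹' Metric.closedBall (0 : StrongDual ℝ H) M := by
    intro n
    simp only [mem_preimage, Metric.mem_closedBall, dist_zero_right, φ]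
    have : WeakDual.toStrongDual (StrongDual.toWeakDual (InnerProductSpace.toDual ℝ H (b n)))
      = InnerProductSpace.toDual ℝ H (b n) := rfl
    rw [this, LinearIsometryEquiv.norm_map]
    exact hb n
  have hc := WeakDual.isCompact_closedBall (𝕜 := ℝ) (E := H) 0 M
  have hU : (U.map φ : Filter (WeakDual ℝ H)) ≤
      𝓟 (WeakDual.toStrongDual ⁻¹' Metric.closedBall (0 : StrongDual ℝ H) M) := by
    rw [Ultrafilter.coe_map, le_principal_iff, mem_map]
    exact univ_mem' hmem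
  obtain ⟨f, -, hf⟩ := hc.ultrafilter_le_nhds (U.map φ) hU
  have ht : Tendsto φ U (𝓝 f) := by
    rw [Ultrafilter.coe_map] at hf
    exact hf
  refine ⟨(InnerProductSpace.toDual ℝ H).symm (WeakDual.toStrongDual f), fun v => ?_⟩
  rw [real_inner_comm, InnerProductSpace.toDual_symm_apply]
  have h2 := ((WeakDual.eval_continuous v).tendsto f).comp ht
  refine h2.congr fun n => ?_
  show ⟪b n, v⟫ = ⟪v, b n⟫
  exact real_inner_comm _ _

/-- A weak limit of points of a closed convex set belongs to it. -/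
theorem mem_of_weak_limit [CompleteSpace H] {κ : Type*} (U : Ultrafilter κ) {T : Set H}
    (hconv : Convex ℝ T) (hcl : IsClosed T) {t : κ → H} (ht : ∀ n, t n ∈ T) {y : H}
    (hy : ∀ v : H, Tendsto (fun n => ⟪v, t n⟫) U (𝓝 ⟪v, y⟫)) : y ∈ T := by
  by_contra hyT
  obtain ⟨f, u, hf1, hf2⟩ := geometric_hahn_banach_closed_point hconv hcl hyT
  have h1 : ∀ z, ⟪(InnerProductSpace.toDual ℝ H).symm f, z⟫ = f z := fun z => by
    rw [InnerProductSpace.toDual_symm_apply]
  have h2 := hy ((InnerProductSpace.toDual ℝ H).symm f)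
  simp only [h1] at h2
  have h3 : f y ≤ u := le_of_tendsto h2 (Eventually.of_forall fun n => (hf1 _ (ht n)).le)
  linarith

/-- Weak lower semicontinuity of the norm. -/
theorem norm_le_of_weak_limit {κ : Type*} (U : Ultrafilter κ) {t : κ → H} {r : ℝ}
    (ht : ∀ n, ‖t n‖ ≤ r) {y : H} (hy : Tendsto (fun n => ⟪y, t n⟫) U (𝓝 ⟪y, y⟫)) : ‖y‖ ≤ r := by
  have h1 : ⟪y, y⟫ ≤ ‖y‖ * r := le_of_tendsto hy (Eventually.of_forall fun n =>
    (real_inner_le_norm y (t n)).trans (mul_le_mul_of_nonneg_left (ht n) (norm_nonneg _)))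
  rw [real_inner_self_eq_norm_sq] at h1
  by_contra h
  rw [not_le] at h
  have hr : 0 ≤ r := by
    obtain ⟨n⟩ : Nonempty κ := U.neBot.nonempty
    exact (norm_nonneg _).trans (ht n)
  nlinarith [norm_nonneg y]

/-- A countable cover of a Hilbert space by bounded closed convex sets has, in every closed affine
subspace of infinite dimension, a point which is not dominated by finitely many members. -/
theorem exists_not_dominated [CompleteSpace H] {ι : Type*}
    [Countable ι] (T : ι → Set H) (hcov : ∀ x, ∃ i, x ∈ T i) (hconv : ∀ i, Convex ℝ (T i))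
    (hcl : ∀ i, IsClosed (T i)) (hbd : ∀ i, Bornology.IsBounded (T i)) (V : Submodule ℝ H)
    (hVc : IsClosed (V : Set H)) (hV : ¬ FiniteDimensional ℝ V) (x₀ : H) :
    ∃ v ∈ V, ¬ Dominated T (x₀ + v) := by
  classical
  by_contra hcon
  have hdom : ∀ v : V, Dominated T (x₀ + v) := fun v => by
    by_contra hx
    exact hcon ⟨v, v.2, hx⟩
  have hcomp : CompleteSpace V := hVc.completeSpace_coe
  obtain ⟨f, hf⟩ := exists_injective_nat ι
  let A : ι → Set H := fun i => {x | ∃ t ∈ T i, ‖x - t‖ ≤ (1 / 2 : ℝ) ^ f i}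
  let B : ι → Set H := fun i => {x | x ∈ A i ∧ ∀ k, f k < f i → x ∉ A k}
  have hTA : ∀ i, T i ⊆ A i := fun i x hx => ⟨x, hx, by
    rw [sub_self, norm_zero]; positivity⟩
  have hbdB : ∀ i, Bornology.IsBounded (wcl (B i)) := by
    intro i
    obtain ⟨R, hR⟩ := (hbd i).subset_closedBall (0 : H)
    refine Metric.isBounded_closedBall.subset
      (wcl_subset_closedBall (R := max R 0 + 1) (by positivity) fun x hx => ?_)
    obtain ⟨t, ht, hxt⟩ := hx.1
    rw [mem_closedBall_zero_iff]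
    have h1 : ‖t‖ ≤ R := mem_closedBall_zero_iff.1 (hR ht)
    have h2 : (1 / 2 : ℝ) ^ f i ≤ 1 := pow_le_one₀ (by norm_num) (by norm_num)
    calc ‖x‖ = ‖t + (x - t)‖ := by congr 1; abel
      _ ≤ ‖t‖ + ‖x - t‖ := norm_add_le _ _
      _ ≤ max R 0 + 1 := by linarith [le_max_left R 0]
  have hlf : ∀ x, Dominated T x →
      ∃ s : ℝ, 0 < s ∧ {i | (wcl (B i) ∩ Metric.ball x s).Nonempty}.Finite := by
    intro x hx
    obtain ⟨I, hI⟩ := hx
    obtain ⟨δ, hδ, E, hE⟩ := hI ((1 / 2 : ℝ) ^ (I.sup f + 1)) (by positivity)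
    obtain ⟨m, hm⟩ := exists_pow_lt_of_lt_one (half_pos hδ) (show (1 / 2 : ℝ) < 1 by norm_num)
    refine ⟨δ / 2, half_pos hδ, ((E.finite_toSet).union ((Set.finite_Iic (I.sup f + m)).preimage
      hf.injOn)).subset fun i hi => ?_⟩
    by_contra hni
    rw [Set.mem_union, not_or] at hni
    have hiE : i ∉ E := fun h => hni.1 h
    have hfi : I.sup f + m < f i := by
      have := hni.2
      rw [Set.mem_preimage, Set.mem_Iic, not_le] at this
      exact this
    obtain ⟨z, hz, hzx⟩ := hi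
    rw [Metric.mem_ball, dist_eq_norm] at hzx
    choose z' hz' hzz' using hz
    choose t ht hzt using fun F => (hz' F).1
    let U : Ultrafilter (Finset H) := Ultrafilter.of atTop
    have hU : (U : Filter (Finset H)) ≤ atTop := Ultrafilter.of_le _
    obtain ⟨R, hR⟩ := (hbd i).subset_closedBall (0 : H)
    obtain ⟨y, hy⟩ := exists_weak_limit U t R fun F => mem_closedBall_zero_iff.1 (hR (ht F))
    have hyT : y ∈ T i := mem_of_weak_limit U (hconv i) (hcl i) ht hy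
    have hz'lim : ∀ v : H, Tendsto (fun F => ⟪v, z' F⟫) U (𝓝 ⟪v, z⟫) := by
      intro v
      refine Tendsto.mono_left ?_ hU
      rw [Metric.tendsto_atTop]
      intro η hη
      obtain ⟨n, hn⟩ := exists_nat_gt (1 / η)
      have hn0 : (0 : ℝ) < n := (one_div_pos.2 hη).trans hn
      refine ⟨{(n : ℝ) • v}, fun F hF => ?_⟩
      have h1 := hzz' F _ (hF (Finset.mem_singleton_self _))
      rw [inner_smul_left, RCLike.conj_to_real, inner_sub_right, abs_mul, abs_of_pos hn0] at h1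
      rw [Real.dist_eq]
      rw [div_lt_iff₀ hη] at hn
      by_contra hle
      rw [not_lt] at hle
      have := mul_le_mul_of_nonneg_left hle hn0.le
      linarith
    have hzy : ‖z - y‖ ≤ (1 / 2 : ℝ) ^ f i := by
      refine norm_le_of_weak_limit U (t := fun F => z' F - t F) hzt ?_
      have h1 := (hz'lim (z - y)).sub (hy (z - y))
      rw [← inner_sub_right] at h1
      refine h1.congr fun F => ?_
      rw [inner_sub_right]
    have hpi : (1 / 2 : ℝ) ^ f i ≤ (1 / 2 : ℝ) ^ m :=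
      pow_le_pow_of_le_one (by norm_num) (by norm_num) (by omega)
    have hyx : ‖y - x‖ < δ := by
      calc ‖y - x‖ = ‖(z - x) - (z - y)‖ := by congr 1; abel
        _ ≤ ‖z - x‖ + ‖z - y‖ := norm_sub_le _ _
        _ < δ := by linarith
    obtain ⟨F0, hF0⟩ := hE i hiE y hyT hyx
    have hev : ∀ᶠ F in (U : Filter (Finset H)), ∀ e ∈ F0, |⟪e, t F - y⟫| < 1 := by
      rw [Filter.eventually_all_finset]
      intro e _
      have h1 := (hy e).sub (tendsto_const_nhds (x := ⟪e, y⟫))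
      rw [sub_self] at h1
      have h2 := h1.abs
      rw [abs_zero] at h2
      filter_upwards [h2.eventually_lt_const one_pos] with F hF
      rwa [inner_sub_right]
    obtain ⟨F, hF⟩ := hev.exists
    obtain ⟨w, hw, hwt⟩ := hF0 (t F) (ht F) hF
    obtain ⟨k, hk, hwk⟩ := mem_iUnion₂.1 hw
    have hfk : f k ≤ I.sup f := Finset.le_sup hk
    refine (hz' F).2 k (by omega) ⟨w, hwk, ?_⟩
    have h1 : (1 / 2 : ℝ) ^ f i ≤ (1 / 2 : ℝ) ^ (I.sup f + 1) :=
      pow_le_pow_of_le_one (by norm_num) (by norm_num) (by omega)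
    have h2 : (1 / 2 : ℝ) ^ I.sup f ≤ (1 / 2 : ℝ) ^ f k :=
      pow_le_pow_of_le_one (by norm_num) (by norm_num) hfk
    calc ‖z' F - w‖ = ‖(z' F - t F) + (t F - w)‖ := by congr 1; abel
      _ ≤ ‖z' F - t F‖ + ‖t F - w‖ := norm_add_le _ _
      _ ≤ (1 / 2 : ℝ) ^ (I.sup f + 1) + (1 / 2 : ℝ) ^ (I.sup f + 1) :=
        add_le_add ((hzt F).trans h1) hwt
      _ = (1 / 2 : ℝ) ^ I.sup f := by rw [pow_succ]; ring
      _ ≤ (1 / 2 : ℝ) ^ f k := h2
  refine no_locally_finite_cover hV (fun i => {v : V | x₀ + v ∈ wcl (B i)}) (fun v => ?_)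
    (fun i => ?_) (fun i v hv => ?_) (fun v => ?_)
  · have hex : ∃ n, ∃ i, f i = n ∧ x₀ + (v : H) ∈ A i := by
      obtain ⟨i, hi⟩ := hcov (x₀ + v)
      exact ⟨f i, i, rfl, hTA i hi⟩
    obtain ⟨i, hi1, hi2⟩ := Nat.find_spec hex
    refine ⟨i, subset_wcl _ ⟨hi2, fun k hk hxk => ?_⟩⟩
    rw [hi1] at hk
    exact Nat.find_min hex hk ⟨k, rfl, hxk⟩
  · obtain ⟨R, hR⟩ := (hbdB i).subset_closedBall (0 : H)
    refine (Metric.isBounded_iff_subset_closedBall (0 : V)).2 ⟨R + ‖x₀‖, fun v hv => ?_⟩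
    have h1 : ‖x₀ + (v : H)‖ ≤ R := mem_closedBall_zero_iff.1 (hR hv)
    rw [mem_closedBall_zero_iff]
    calc ‖v‖ = ‖(x₀ + (v : H)) - x₀‖ := by rw [add_sub_cancel_left]; rfl
      _ ≤ ‖x₀ + (v : H)‖ + ‖x₀‖ := norm_sub_le _ _
      _ ≤ R + ‖x₀‖ := by linarith
  · obtain ⟨F, hF⟩ := wcl_miss hv
    refine ⟨F.image fun e => V.orthogonalProjectionOnto e, fun z hz hze => hF _ hz fun e he => ?_⟩
    have h1 := hze _ (Finset.mem_image_of_mem _ he)
    rw [Submodule.inner_orthogonalProjectionOnto_eq_of_mem_right] at h1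
    rw [add_sub_add_left_eq_sub]
    exact h1
  · obtain ⟨s, hs, hfin⟩ := hlf _ (hdom v)
    refine ⟨s, hs, hfin.subset fun i hi => ?_⟩
    obtain ⟨z, hz1, hz2⟩ := hi
    refine ⟨x₀ + z, hz1, ?_⟩
    rw [Metric.mem_ball, dist_eq_norm] at hz2 ⊢
    rw [add_sub_add_left_eq_sub]
    exact hz2

/-- If the family is face-to-face along `V`, then every point of a member which belongs to `V` is
dominated by this member. -/
theorem dominated_of_faceToFace {ι : Type*} {T : ι → Set H} {V : Set H}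
    (h : FaceToFaceAlong T V) {i : ι} {x : H} (hx : x ∈ T i) (hxV : x ∈ V) : Dominated T x := by
  refine ⟨{i}, fun ε hε => ?_⟩
  obtain ⟨δ, hδ, h1⟩ := h i x hx hxV ε hε
  refine ⟨δ / 2, half_pos hδ, {i}, fun j hj y hy hyx => ?_⟩
  obtain ⟨f, c, hf, hi, hjj⟩ := h1 j (fun hij => hj (Finset.mem_singleton.2 hij))
    ⟨y, hy, by linarith⟩
  refine ⟨{(2 / δ) • f}, fun z hz hzy => ?_⟩
  have h2 := hzy _ (Finset.mem_singleton_self _)
  rw [inner_smul_left, RCLike.conj_to_real, abs_mul, abs_of_pos (by positivity), inner_sub_right,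
    div_mul_eq_mul_div, div_lt_one hδ] at h2
  have h3 : ⟪f, y⟫ - ⟪f, x⟫ ≤ ‖y - x‖ := by
    rw [← inner_sub_right]
    calc ⟪f, y - x⟫ ≤ ‖f‖ * ‖y - x‖ := real_inner_le_norm _ _
      _ = ‖y - x‖ := by rw [hf, one_mul]
  have h4 := hi x hx
  have h5 := le_abs_self (⟪f, z⟫ - ⟪f, y⟫)
  obtain ⟨w, hw, hzw⟩ := (hjj z hz).2 (by linarith)
  exact ⟨w, mem_iUnion₂.2 ⟨i, Finset.mem_singleton_self i, hw⟩, hzw⟩

end Pool.Agent.Lib.MP_3191e9_an_h61
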